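import Pool.Agent.Helper89.OS.St1

/-! # Project OS, module YYZ: the integer vectors `y = p u` and `z = m u'` -/

set_option autoImplicit false

namespace Pool.Agent.Helper75.OS

open Matrix ComplexConjugate Pool.Agent.Helper94.YF Pool.Agent.Helper94.YG Pool.Agent.Helper89.OS

/-- The numbers `n * rho (s2 c) i o` are integers. -/
lemma int_vec {I : Type} [Fintype I] [DecidableEq I] (hInt : StINT) (hR : StRAT)
    (Z : CentreData I) (c : ZMod Z.L) (hc : c * c = c) :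
    ∃ M : I → ℤ, ∀ i, (M i : ℂ) = (Z.n : ℂ) * Z.rho (s2 c) i Z.o := by
  have h0 : ∀ i, ∃ M : ℤ, (M : ℂ) = (Z.n : ℂ) * Z.rho (s2 c) i Z.o := by
    intro i
    have h1 : IsIntegral ℤ ((Z.n : ℂ) * Z.rho (s2 c) i Z.o) :=
      hInt I Z.toCentreRep (s2 c) i (-1) (by rw [s2_00 c hc, s2_10 c]; ring)
    have h2 : ∀ σ : ℂ ≃+* ℂ, σ ((Z.n : ℂ) * Z.rho (s2 c) i Z.o) =
        (Z.n : ℂ) * Z.rho (s2 c) i Z.o := by
      intro σ
      rw [map_mul, s2_fixed Z.toCentreRep c hc σ i, map_natCast]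
    exact hR.1 _ h1 h2
  choose M hM using h0
  exact ⟨M, hM⟩

theorem hYYZ : StYYZ := by
  intro hF hD hInt hR I _ _ Z p a m b hp ha hI hn hpm
  obtain ⟨L', hL, hpL, hLb⟩ := hI.ex
  have hb := hI.idem
  have hm0 : 0 < m := by
    rcases Nat.eq_zero_or_pos m with h | h
    · exact absurd (h ▸ dvd_zero p) hpm
    · exact h
  have hcop : Nat.Coprime m (p ^ a) :=
    Nat.Coprime.pow_right a ((Nat.Prime.coprime_iff_not_dvd hp).2 hpm).symm
  obtain ⟨M, hM⟩ := int_vec hInt hR Z b hb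
  obtain ⟨y, hy⟩ := desc_all hF hD hR Z (p ^ a) b hb ⟨L', hL⟩ hI.ann p m hm0 hcop M (by
    intro i
    rw [hM i, hn])
  have hc : (1 - b) * (1 - b) = 1 - b := by linear_combination hb
  obtain ⟨M', hM'⟩ := int_vec hInt hR Z (1 - b) hc
  have hdv : ∀ i, (p : ℤ) ∣ M' i := fun i =>
    descend hF hD hR Z L' (1 - b) hc ⟨p ^ a, by rw [mul_comm]; exact hL⟩ hLb p hp
      ((Nat.Prime.coprime_iff_not_dvd hp).2 hpL) Z.n ⟨m, hn⟩ M' hM' i
  choose z hz using hdv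
  refine ⟨y, z, hy, fun i => ?_⟩
  have hp0 : (p : ℂ) ≠ 0 := by exact_mod_cast hp.ne_zero
  have h2 := hM' i
  rw [hz i, hn] at h2
  push_cast at h2
  apply mul_left_cancel₀ hp0
  rw [h2]
  ring

end Pool.Agent.Helper75.OS
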